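import Pool.Agent.Y213.I.Main

/-!
# Integral points of varieties quasi-finite over a power of an elliptic curve

`E : y² = x³ + a x + b` is an elliptic curve over a number field `K` (any rank, with or without
complex multiplication), `R` is a ring of `S`-integers of `K` and `X` is a closed subvariety of
`E ^ r × 𝔸 ^ n` over `K`, such that the fibres of `X → E ^ r` have at most `D` points. A set `T` of
points of `𝔸 ^ n` with coordinates in `R`, above each of which `X` has a `K`-rational point, has at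
most `C Y ^ ε` elements if for any two of them the number of the residue classes modulo the ideal
generated by the differences of the coordinates is at most `Y`. Neither the height of the points nor
the position of `T` matter.
-/

set_option autoImplicit false

namespace Pool.Agent.Results.MP_a41896_nt.IntegralPointsOverEllipticPower

open MvPolynomial NumberField

/-- `v` are homogeneous coordinates of a point of the curve `y² = x³ + a x + b` -/
def OnE {k : Type} [Field k] (a b : k) (v : Fin 3 → k) : Prop :=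
  v ≠ 0 ∧ v 1 ^ 2 * v 2 = v 0 ^ 3 + a * v 0 * v 2 ^ 2 + b * v 2 ^ 3

/-- `F` is homogeneous of degree `d i` in the coordinates `(i, 0), (i, 1), (i, 2)` of the `i`-th
point of the plane; there is no condition on the last `n` variables -/
def PlaneHom {O : Type} [CommRing O] {r n : ℕ} (F : MvPolynomial ((Fin r × Fin 3) ⊕ Fin n) O)
    (d : Fin r → ℕ) : Prop :=
  ∀ e ∈ F.support, ∀ i, ∑ j, e (Sum.inl (i, j)) = d i

/-- the fibre over `V` (the homogeneous coordinates of a point of `E ^ r` over `k`), in the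
affine `n`-space over `k`, of the subvariety defined by the `G e` -/
def Fibre {O k : Type} [CommRing O] [Field k] (φ : O →+* k) {r n q : ℕ}
    (G : Fin q → MvPolynomial ((Fin r × Fin 3) ⊕ Fin n) O) (V : Fin r → Fin 3 → k) :
    Set (Fin n → k) :=
  {t | ∀ e, eval₂ φ (Sum.elim (fun ij => V ij.1 ij.2) t) (G e) = 0}

/-- the points of affine `n`-space with coordinates in `R` above which `X` has a `K`-rational
point -/
def Below {K : Type} [Field K] (R : Type) [CommRing R] [Algebra R K] (a b : 𝓞 K) {r n q : ℕ}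
    (G : Fin q → MvPolynomial ((Fin r × Fin 3) ⊕ Fin n) (𝓞 K)) : Set (Fin n → R) :=
  {t | ∃ V : Fin r → Fin 3 → K, (∀ i, OnE (a : K) (b : K) (V i)) ∧
    (fun i => algebraMap R K (t i)) ∈ Fibre (algebraMap (𝓞 K) K) G V}

theorem result (K : Type) [Field K] [NumberField K] (a b : 𝓞 K)
    (hE : 4 * a ^ 3 + 27 * b ^ 2 ≠ 0) (r n q : ℕ)
    (G : Fin q → MvPolynomial ((Fin r × Fin 3) ⊕ Fin n) (𝓞 K))
    (d : Fin q → Fin r → ℕ) (hG : ∀ e, PlaneHom (G e) (d e))
    (σ : K →+* ℂ) (D : ℕ)
    (hX : ∀ V : Fin r → Fin 3 → ℂ, (∀ i, OnE (σ a) (σ b) (V i)) →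
      (Fibre (σ.comp (algebraMap (𝓞 K) K)) G V).encard ≤ D)
    (s : 𝓞 K) (hs : s ≠ 0) (R : Type) [CommRing R] [Algebra (𝓞 K) R] [Algebra R K]
    [IsScalarTower (𝓞 K) R K] [IsLocalization.Away s R]
    (ε : ℝ) (hε : 0 < ε) :
    ∃ C : ℝ, ∀ Y : ℕ, 1 ≤ Y → ∀ T : Finset (Fin n → R), (T : Set (Fin n → R)) ⊆ Below R a b G →
      (∀ t ∈ T, ∀ t' ∈ T, t ≠ t' → ENat.card (R ⧸ Ideal.span (Set.range (t - t'))) ≤ Y) →
      (T.card : ℝ) ≤ C * (Y : ℝ) ^ ε := by
  have hdK : Pool.Agent.H901R3.MS.Disc (a : K) (b : K) := by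
    intro h
    apply hE
    have h1 : (2 * (4 * a ^ 3 + 27 * b ^ 2) : 𝓞 K) = 0 := by
      apply RingOfIntegers.ext
      have h2 : ((2 * (4 * a ^ 3 + 27 * b ^ 2) : 𝓞 K) : K) =
          2 * (4 * (a : K) ^ 3 + 27 * (b : K) ^ 2) := by
        simp only [map_mul, map_add, map_pow, map_ofNat]
      rw [h2]
      exact h
    exact (mul_eq_zero.1 h1).resolve_left two_ne_zero
  obtain ⟨C, hC⟩ := Pool.Agent.Y213.I.main K r n q a b hdK G d hG σ D hX R s hs ε hε
  exact ⟨C, fun Y hY T hT hTT => hC Y hY T (fun t ht => hT ht) hTT⟩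

end Pool.Agent.Results.MP_a41896_nt.IntegralPointsOverEllipticPower
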