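import Mathlib
import Pool.Agent.Y557.OE.Pieces

/-!
# Vojta's conjecture for stacky curves: one exceptional set for all stacky curves over all number
fields

Let `K` be a number field and `a_1, …, a_q` distinct rational numbers, `q ≥ 3`, for example `q = 3`.
We consider ALL number fields `k`, all smooth projective curves `X` over `k` with finitely many
closed points (or reduced divisors) `Q_1, …, Q_n`, all orders `e_l ≥ 1`, and the root stack `𝒳` over
`X` of order `e_l` at `Q_l`, and all finite maps `t : X → ℙ¹` of degree `N` over `k` which are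
unramified outside the fibres over the `a_j` and map the `Q_l` to the `a_j` (such a map exists by
Belyi's theorem, even with `q = 3`; we may suppose that every point over the `a_j` is in one of the
`Q_l`, with `e_l = 1` if it is not stacky). Let `A` be the ring of functions on `X` with poles only
over `∞`, let `z_{l 0} = t - a_{j(l)}, z_{l 1}, …` be generators of the ideal `I_l` of `Q_l`. Then
for a set `J` of indices and the divisor `𝒟_J` of the stacky points over `Q_l`, `l ∈ J`,
`deg (K_𝒳 + 𝒟_J) / N = q - 2 - ∑_{l ∉ J} dim (A / I_l) / (e_l N)`.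

The points `P` of `X` (not over `∞`) over a number field `L` containing `k` are the homomorphisms
`φ : A → L` over `k`; such a point outside the `Q_l` is an integral point of `𝒳` over the
`S`-integers of `L` if for every prime `v` of `L` outside `S` the intersection number of `P` and
`Q_l` at `v` is divisible by `e_l` for all `l`.

The elements `x` of `K`, of all heights, are ordered by the truncated counting function of
`[a_1] + … + [a_q]` on the line; there are `X ^ (2 / q + o(1))` of them for which it is at most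
`log X`. We prove that for every `κ > 0` there is a set `E ⊆ K`, which contains only
`O(X ^ (2 / q - ν))` of them, such that for all `k`, `X`, `t`, `Q_l` and `S`, with a constant `c`
depending on these data, the inequality with discriminant term holds, with `(2 - κ) h(x)` to spare,
for the integral points `P` of `𝒳` over ALL number fields `L` containing `k` and `K`, over all `x`
not in `E`, for all orders `e_l` and all `J`.
-/

set_option autoImplicit false

namespace Pool.Agent.Results.MP_a41896_nt.OneExceptionalSet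

open Polynomial IsDedekindDomain NumberField

/-- The function `t` on the curve with the ring of functions `A`. -/
noncomputable def coord (k A : Type) [Field k] [CommRing A] [Algebra k[X] A] : A :=
  algebraMap k[X] A X

/-- The absolute logarithmic height of the point `x` of the line. -/
noncomputable def height {K : Type} [Field K] [NumberField K] (x : K) : ℝ :=
  Height.logHeight₁ x / Module.finrank ℚ K

open Classical in
/-- The truncated counting function of `[a_1] + … + [a_q]` at the point `x` of the line over `K`: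
the sum of `log N(v)` over the primes `v` of `K` at which `x` and some `a_j` have the same
reduction. -/
noncomputable def counting {K : Type} [Field K] [NumberField K] {q : ℕ}
    (a : Fin q → K) (x : K) : ℝ :=
  ∑ᶠ v : HeightOneSpectrum (𝓞 K),
    if ∃ j, v.valuation K (x - a j) < max (v.valuation K (a j)) 1 * max (v.valuation K x) 1
    then Real.log (Ideal.absNorm v.asIdeal) else 0

/-- `P = φ` reduces to a point of `Q = {z_0 = z_1 = ⋯ = 0}` at `v`: `|t(P)|_v ≤ 1` and
`|z_i(P)|_v < 1` for all `i`. -/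
def Meets {k A : Type} [Field k] [CommRing A] [Algebra k A] [Algebra k[X] A] {s : ℕ}
    (z : Fin (s + 1) → A) {L : Type} [Field L] [NumberField L] [Algebra k L] (φ : A →ₐ[k] L)
    (v : HeightOneSpectrum (𝓞 L)) : Prop :=
  v.valuation L (φ (coord k A)) ≤ 1 ∧ ∀ i, v.valuation L (φ (z i)) < 1

/-- `P = φ` is an integral point over the `S`-integers of `L` of the curve with stacky points of
order `e_l` at `Q_l = {z_{l 0} = z_{l 1} = ⋯ = 0}`: for every prime `v` of `L` which contains no
prime of `S` and every `l` such that `P` reduces to a point of `Q_l` at `v`, the intersection number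
of `P` and `Q_l` at `v`, that is the number `m` with `max_i |z_{l i}(P)|_v = exp(- m)` (normalised
valuation), is a multiple of `e_l`. -/
def IsIntegralPoint {k A : Type} [Field k] [CommRing A] [Algebra k A] [Algebra k[X] A] {n : ℕ}
    (S : Finset ℕ) {s : Fin n → ℕ} (z : ∀ l, Fin (s l + 1) → A) (e : Fin n → ℕ) {L : Type}
    [Field L] [NumberField L] [Algebra k L] (φ : A →ₐ[k] L) : Prop :=
  ∀ v : HeightOneSpectrum (𝓞 L), (∀ p ∈ S, (p : 𝓞 L) ∉ v.asIdeal) → ∀ l, Meets (z l) φ v →
    ∃ m : ℕ, e l ∣ m ∧ (∀ i, v.valuation L (φ (z l i)) ≤ WithZero.exp (-(m : ℤ))) ∧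
      ∃ i, v.valuation L (φ (z l i)) = WithZero.exp (-(m : ℤ))

open Classical in
/-- The (absolute) truncated counting function `N^{(1)}(𝒟_J, P)`: the sum of `log N(v) / [L : ℚ]`
over the primes `v` of `L`, not above primes of `S`, at which `P` reduces to a point of `Q_l` for
some `l ∈ J`. -/
noncomputable def truncated {k A : Type} [Field k] [CommRing A] [Algebra k A] [Algebra k[X] A]
    {n : ℕ} (S : Finset ℕ) {s : Fin n → ℕ} (z : ∀ l, Fin (s l + 1) → A) (J : Finset (Fin n))
    {L : Type} [Field L] [NumberField L] [Algebra k L] (φ : A →ₐ[k] L) : ℝ :=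
  (∑ᶠ v : HeightOneSpectrum (𝓞 L),
      if (∀ p ∈ S, (p : 𝓞 L) ∉ v.asIdeal) ∧ ∃ l ∈ J, Meets (z l) φ v
      then Real.log (Ideal.absNorm v.asIdeal) else 0) / Module.finrank ℚ L

/-- The (absolute) logarithmic discriminant `d(L) = log |disc L| / [L : ℚ]`. -/
noncomputable def logDisc (L : Type) [Field L] [NumberField L] : ℝ :=
  Real.log |(NumberField.discr L : ℝ)| / Module.finrank ℚ L

/-- `q - ∑_{l ∉ J} dim (A / I_l) / (e_l N)` for `I_l = (z_{l 0}, z_{l 1}, …)` and `N` the rank of
`A` over `k[t]`: the number `2 + deg (K_𝒳 + 𝒟_J) / N`. -/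
noncomputable def degree (k : Type) {A : Type} [Field k] [CommRing A] [Algebra k A]
    [Algebra k[X] A] (q : ℕ) {n : ℕ} {s : Fin n → ℕ} (z : ∀ l, Fin (s l + 1) → A)
    (e : Fin n → ℕ) (J : Finset (Fin n)) : ℝ :=
  q - ∑ l ∈ Jᶜ, (Module.finrank k (A ⧸ Ideal.span (Set.range (z l))) : ℝ) /
    (e l * Module.finrank k[X] A)

/-- The elements `x` of `K`, of whatever height, different from the `a_j`, whose truncated counting
function with respect to `[a_1] + … + [a_q]` is at most `log X`. -/
def Values (K : Type) [Field K] [NumberField K] {q : ℕ} (a : Fin q → ℚ) (X : ℝ) : Set K :=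
  {x | (∀ j, x ≠ algebraMap ℚ K (a j)) ∧
    counting (fun j => algebraMap ℚ K (a j)) x ≤ Real.log X}

open Classical in
theorem counting_eq {K : Type} [Field K] [NumberField K] {q : ℕ} (a : Fin q → K) (x : K) :
    counting a x = Pool.Agent.Y728.AK.cntK ∅ a x := by
  unfold counting Pool.Agent.Y728.AK.cntK Pool.Agent.Y728.AK.NearK
  refine finsum_congr fun v => ?_
  by_cases h : ∃ j,
      v.valuation K (x - a j) < max (v.valuation K (a j)) 1 * max (v.valuation K x) 1
  · exact (if_pos h).trans (if_pos ⟨Finset.notMem_empty v, h⟩).symm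
  · exact (if_neg h).trans (if_neg fun h' => h h'.2).symm

theorem values_eq {K : Type} [Field K] [NumberField K] {q : ℕ} (a : Fin q → ℚ) (X : ℝ) :
    Values K a X = Pool.Agent.Y728.AK.ValAllK K ∅ (fun j => algebraMap ℚ K (a j)) X := by
  ext x
  refine and_congr Iff.rfl ?_
  rw [counting_eq]

open Pool.Agent.W223.CV in
/-- the pieces in `J` and the others -/
lemma cc_pieces {L : Type} [Field L] [NumberField L] {n : ℕ} (S : Finset ℕ) (J : Finset (Fin n))
    (Q : Fin n → HeightOneSpectrum (𝓞 L) → Prop) (hQ : ∀ l, {v | Q l v}.Finite) :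
    cc S (fun v => ∃ l ∈ (Finset.univ : Finset (Fin n)), Q l v) ≤
      cc S (fun v => ∃ l ∈ J, Q l v) + ∑ l ∈ Jᶜ, cc S (Q l) := by
  classical
  have hfin : ∀ I : Finset (Fin n), {v | ∃ l ∈ I, Q l v}.Finite := by
    intro I
    refine (Set.finite_iUnion fun l => hQ l).subset ?_
    rintro v ⟨l, -, hv⟩
    exact Set.mem_iUnion.mpr ⟨l, hv⟩
  have h1 := cc_mono (S := S) (le_refl S) (A := fun v => (∃ l ∈ J, Q l v) ∨ ∃ l ∈ Jᶜ, Q l v)
    (A' := fun v => ∃ l ∈ (Finset.univ : Finset (Fin n)), Q l v) ((hfin J).union (hfin Jᶜ)) (by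
      rintro v - ⟨l, -, hl⟩
      by_cases h : l ∈ J
      · exact Or.inl ⟨l, h, hl⟩
      · exact Or.inr ⟨l, Finset.mem_compl.mpr h, hl⟩)
  have h2 := cc_or S (hfin J) (hfin Jᶜ)
  have h3 := cc_exists S Jᶜ Q hQ
  linarith

theorem cc_nonneg {L : Type} [Field L] [NumberField L] (S : Finset ℕ)
    (Q : HeightOneSpectrum (𝓞 L) → Prop) : 0 ≤ Pool.Agent.W223.CV.cc S Q := by
  classical
  unfold Pool.Agent.W223.CV.cc
  refine finsum_nonneg fun v => ?_
  unfold Pool.Agent.W223.CV.ct
  split_ifs
  · exact Real.log_natCast_nonneg _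
  · exact le_rfl

open Classical in
theorem truncated_eq {k A : Type} [Field k] [CommRing A] [Algebra k A] [Algebra k[X] A]
    {n : ℕ} (S : Finset ℕ) {s : Fin n → ℕ} (z : ∀ l, Fin (s l + 1) → A) (J : Finset (Fin n))
    {L : Type} [Field L] [NumberField L] [Algebra k L] (φ : A →ₐ[k] L) :
    truncated S z J φ = Pool.Agent.W223.CV.cc S (fun v : HeightOneSpectrum (𝓞 L) =>
      ∃ l ∈ J, Pool.Agent.Y557.OE.Nz k (z l) (φ : A →+* L) v) / Module.finrank ℚ L := by
  unfold truncated
  refine congrArg (fun t : ℝ => t / Module.finrank ℚ L) ?_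
  unfold Pool.Agent.W223.CV.cc
  refine finsum_congr fun v => ?_
  by_cases h : (∀ p ∈ S, (p : 𝓞 L) ∉ v.asIdeal) ∧
      ∃ l ∈ J, Pool.Agent.Y557.OE.Nz k (z l) (φ : A →+* L) v
  · rw [Pool.Agent.W223.CV.ct_pos h]
    exact if_pos h
  · rw [Pool.Agent.W223.CV.ct_neg h]
    exact if_neg h

theorem logDisc_nonneg (L : Type) [Field L] [NumberField L] : 0 ≤ logDisc L := by
  refine div_nonneg (Real.log_nonneg ?_) (Nat.cast_nonneg _)
  have h5 : (1 : ℤ) ≤ |discr L| := Int.one_le_abs (discr_ne_zero L)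
  have h6 : |(discr L : ℝ)| = ((|discr L| : ℤ) : ℝ) := by push_cast; rfl
  rw [h6]
  exact_mod_cast h5

theorem height_nonneg {K : Type} [Field K] [NumberField K] (x : K) : 0 ≤ height x :=
  div_nonneg (Height.zero_le_logHeight₁ x) (Nat.cast_nonneg _)

/-- **Vojta's inequality for integral points of stacky curves, one exceptional set for all stacky
curves over all number fields, all heights.** Let `K` be a number field and `a_1, …, a_q` distinct
rational numbers, `q ≥ 3`.

(1) The number of the elements `x` of `K`, of whatever height, with truncated counting function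
`≤ log X` with respect to `[a_1] + … + [a_q]` is `X ^ (2 / q + o(1))`.

(2) For every `κ > 0` there is a set `E ⊆ K` such that at most `C X ^ (2 / q - ν)` of them, for
large `X` at most `X ^ (-ν)` times their number, are in `E`, and such that the following holds for
all number fields `k`. Let `A` be a Dedekind domain, finite over `k[t]` and containing it (the ring
of functions of a smooth affine curve over `k` which is finite over the `t`-line), of rank `N`, let
`Q_1, …, Q_n` be closed subschemes of the curve, defined by `z_{l 0} = t - a_{j(l)}, z_{l 1}, …`,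
which contain all points over the `a_j`, and let `S` be a finite set of primes. Then there is a
constant `c` such that for all `x` in `K`, different from the `a_j`, which are not in `E`, all number
fields `L` containing `k` and `K`, all points `P` of the curve over `L` with `t(P) = x` and all
orders `e_l ≥ 1` for which `P` is an `S`-integral point over `L` of the curve with stacky points of
order `e_l` at `Q_l`, the inequality
`(q - ∑_{l ∉ J} dim (A / I_l) / (e_l N) - κ) h(x) ≤ N^{(1)}(𝒟_J, P) + d(L) + c` holds for all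
`J`. -/
theorem result (K : Type) [Field K] [NumberField K] (q : ℕ) (hq : 3 ≤ q) (a : Fin q → ℚ)
    (ha : Function.Injective a) :
    (∀ δ : ℝ, 0 < δ →
      (∃ C : ℝ, ∀ X : ℝ, 1 ≤ X → (Values K a X).Finite ∧
        ((Values K a X).ncard : ℝ) ≤ C * X ^ (2 / (q : ℝ) + δ)) ∧
      ∃ X₀ : ℝ, ∀ X : ℝ, X₀ ≤ X → X ^ (2 / (q : ℝ) - δ) ≤ ((Values K a X).ncard : ℝ)) ∧
    ∀ κ : ℝ, 0 < κ → ∃ E : Set K,
      (∃ ν C : ℝ, 0 < ν ∧ 0 < C ∧ ∀ X : ℝ, 1 ≤ X →
        ((E ∩ Values K a X).ncard : ℝ) ≤ C * X ^ (2 / (q : ℝ) - ν)) ∧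
      (∃ ν X₀ : ℝ, 0 < ν ∧ ∀ X : ℝ, X₀ ≤ X →
        ((E ∩ Values K a X).ncard : ℝ) ≤ X ^ (-ν) * ((Values K a X).ncard : ℝ)) ∧
      ∀ (k : Type) [Field k] [NumberField k] (A : Type) [CommRing A] [IsDedekindDomain A]
        [Algebra k A] [Algebra k[X] A] [IsScalarTower k k[X] A] [Module.Finite k[X] A]
        [FaithfulSMul k[X] A] (n : ℕ) (j : Fin n → Fin q) (s : Fin n → ℕ)
        (z : ∀ l, Fin (s l + 1) → A),
        (∀ l, z l 0 = coord k A - algebraMap k A (algebraMap ℚ k (a (j l)))) →
        (∀ i, ∏ l with j l = i, Ideal.span (Set.range (z l)) ≤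
          (Ideal.span {coord k A - algebraMap k A (algebraMap ℚ k (a i))}).radical) →
        ∀ S : Finset ℕ, (∀ p ∈ S, p.Prime) → ∃ c : ℝ,
          ∀ x : K, x ∉ E → (∀ i, x ≠ algebraMap ℚ K (a i)) →
          ∀ (L : Type) [Field L] [NumberField L] [Algebra K L] [Algebra k L] (φ : A →ₐ[k] L),
            φ (coord k A) = algebraMap K L x → ∀ e : Fin n → ℕ, (∀ l, 1 ≤ e l) →
            IsIntegralPoint S z e φ → ∀ J : Finset (Fin n),
              (degree k q z e J - κ) * height x ≤ truncated S z J φ + logDisc L + c := by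
  classical
  have hb : Function.Injective fun j => algebraMap ℚ K (a j) :=
    (algebraMap ℚ K).injective.comp ha
  have hlow : ∀ δ : ℝ, 0 < δ → ∃ X₀ : ℝ, 1 ≤ X₀ ∧ ∀ X : ℝ, X₀ ≤ X →
      X ^ (2 / (q : ℝ) - δ) ≤ ((Values K a X).ncard : ℝ) := by
    intro δ hδ
    simp only [values_eq]
    exact Pool.Agent.Y728.AK.val_lowK K hq ∅ _ hb δ hδ
  refine ⟨fun δ hδ => ⟨?_, ?_⟩, fun κ hκ => ?_⟩
  · simp only [values_eq]
    exact Pool.Agent.Y728.AK.val_allK K hq ∅ _ hb δ hδ
  · obtain ⟨X0, -, h⟩ := hlow δ hδ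
    exact ⟨X0, h⟩
  obtain ⟨E, hE⟩ : ∃ E : Set K, E = {x | ¬ ((q : ℝ) - κ / 2) * Real.log (Height.mulHeight₁ x) ≤
    Pool.Agent.Y728.AK.cntK ∅ (fun j => algebraMap ℚ K (a j)) x} := ⟨_, rfl⟩
  have hupp : ∃ ν C : ℝ, 0 < ν ∧ 0 < C ∧ ∀ X : ℝ, 1 ≤ X →
      ((E ∩ Values K a X).ncard : ℝ) ≤ C * X ^ (2 / (q : ℝ) - ν) := by
    obtain ⟨ν, C, hν, -, hC, h⟩ := Pool.Agent.Y728.AK.val_excK K hq ∅ ∅
      (Finset.Subset.refl _) (fun j => algebraMap ℚ K (a j)) hb (κ := κ / 2) (by positivity) 0
    refine ⟨ν, C, hν, hC, fun X hX => ?_⟩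
    obtain ⟨h1, h2⟩ := h X hX
    refine le_trans ?_ h2
    have hsub : E ∩ Values K a X ⊆ Pool.Agent.Y728.AK.ValExcK K ∅ ∅
        (fun j => algebraMap ℚ K (a j)) (κ / 2) 0 X := by
      rintro x ⟨h3, h4⟩
      rw [values_eq] at h4
      refine ⟨h4.1, h4.2, ?_⟩
      rw [hE] at h3
      rw [add_zero]
      exact not_le.1 h3
    exact_mod_cast Set.ncard_le_ncard hsub h1
  refine ⟨E, hupp, ?_, ?_⟩
  · obtain ⟨ν, C, hν, hC, h1⟩ := hupp
    obtain ⟨X0, hX0, h2⟩ := hlow (ν / 2) (by positivity)
    exact ⟨ν / 4, _, by positivity, Pool.Agent.Y728.AK.ratio_of hν hC hX0 h1 h2⟩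
  intro k _ _ A _ _ _ _ _ _ _ n j s z hz0 hcov S hS
  obtain ⟨ε, hε'⟩ : ∃ ε : ℝ, ε = κ / 2 := ⟨_, rfl⟩
  have hε : 0 < ε := by rw [hε']; positivity
  have hn0 : (0 : ℝ) < (n : ℝ) + 1 := by positivity
  obtain ⟨M, Ck, G, hM, hCk, hG, hkey⟩ := Pool.Agent.Y557.OE.keyP k A
    (fun i => algebraMap ℚ k (a i)) j s z hz0 hcov (ε / (n + 1)) (by positivity)
  obtain ⟨W, hW0, hbase⟩ := Pool.Agent.Y557.OE.base_all (K := K) a (M.primeFactors ∪ S) (by
    intro p hp
    rcases Finset.mem_union.1 hp with h | h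
    · exact Nat.prime_of_mem_primeFactors h
    · exact hS p h)
  have hR : {x : K | aeval x G = 0}.Finite := by
    refine (Polynomial.rootSet_finite G K).subset fun x hx => ?_
    exact (Polynomial.mem_rootSet_of_ne hG).mpr hx
  obtain ⟨d, hd⟩ : ∃ d : ℝ, d = (Module.finrank ℚ K : ℝ) := ⟨_, rfl⟩
  have hd0 : 0 < d := by rw [hd]; exact_mod_cast Module.finrank_pos
  obtain ⟨lK, hlK⟩ : ∃ lK : ℝ, lK = Real.log |(discr K : ℝ)| := ⟨_, rfl⟩
  have hsum0 : 0 ≤ ∑ x ∈ hR.toFinset, (q : ℝ) * height x :=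
    Finset.sum_nonneg fun x _ => mul_nonneg (Nat.cast_nonneg _) (height_nonneg x)
  refine ⟨|n * Ck + W - lK / d| + ∑ x ∈ hR.toFinset, (q : ℝ) * height x, ?_⟩
  intro x hxE hxa L _ _ _ _ φ hφ e he hint J
  have hLpos : (0 : ℝ) < Module.finrank ℚ L := by exact_mod_cast Module.finrank_pos
  obtain ⟨T, hT⟩ : ∃ T : ℝ, T = Pool.Agent.W223.CV.cc S (fun v : HeightOneSpectrum (𝓞 L) =>
    ∃ l ∈ J, Pool.Agent.Y557.OE.Nz k (z l) (φ : A →+* L) v) := ⟨_, rfl⟩
  have hT0 : 0 ≤ T := by rw [hT]; exact cc_nonneg _ _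
  rw [truncated_eq, ← hT]
  have hTd : 0 ≤ T / Module.finrank ℚ L := div_nonneg hT0 hLpos.le
  have hD0 := logDisc_nonneg L
  have hh0 := height_nonneg x
  by_cases hGx : aeval x G = 0
  · -- finitely many values
    have hxR : x ∈ hR.toFinset := (Set.Finite.mem_toFinset hR).2 hGx
    have h1 : (q : ℝ) * height x ≤ ∑ x ∈ hR.toFinset, (q : ℝ) * height x :=
      Finset.single_le_sum (f := fun x : K => (q : ℝ) * height x)
        (fun x _ => mul_nonneg (Nat.cast_nonneg _) (height_nonneg x)) hxR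
    have h2 : degree k q z e J ≤ q := by
      unfold degree
      have : 0 ≤ ∑ l ∈ Jᶜ, (Module.finrank k (A ⧸ Ideal.span (Set.range (z l))) : ℝ) /
          (e l * Module.finrank k[X] A) := Finset.sum_nonneg fun l _ => by positivity
      linarith
    have h3 : (degree k q z e J - κ) * height x ≤ (q : ℝ) * height x :=
      mul_le_mul_of_nonneg_right (by linarith) hh0
    have h4 := abs_nonneg (n * Ck + W - lK / d)
    linarith
  have hxe : ((q : ℝ) - κ / 2) * Real.log (Height.mulHeight₁ x) ≤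
      Pool.Agent.Y728.AK.cntK ∅ (fun j => algebraMap ℚ K (a j)) x := by
    by_contra h
    apply hxE
    rw [hE]
    exact h
  have hφ' : φ (algebraMap k[X] A X) = algebraMap K L x := hφ
  obtain ⟨hfin, hk1, hk2⟩ := hkey L φ (by
    rw [hφ', aeval_algebraMap_apply]
    intro h
    exact hGx ((map_eq_zero _).1 h)) (by
    intro i h
    rw [hφ', ← IsScalarTower.algebraMap_apply, IsScalarTower.algebraMap_apply ℚ K L] at h
    exact hxa i ((algebraMap K L).injective h))
  have hk1 := hk1 S
  rw [hφ', Pool.Agent.Y557.OE.cnt_tower (k₀ := ℚ) (k := k)] at hk1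
  have hb1 := hbase L x hxa
  have h8 := cc_pieces S J (fun l (v : HeightOneSpectrum (𝓞 L)) =>
    Pool.Agent.Y557.OE.Nz k (z l) (φ : A →+* L) v) hfin
  rw [← hT] at h8
  have hfd : FiniteDimensional K L := Module.Finite.of_restrictScalars_finite ℚ K L
  obtain ⟨m, hm⟩ : ∃ m : ℝ, m = (Module.finrank K L : ℝ) := ⟨_, rfl⟩
  have hm0 : 0 < m := by rw [hm]; exact_mod_cast Module.finrank_pos
  have htow : (Module.finrank ℚ L : ℝ) = d * m := by
    rw [hd, hm]
    exact_mod_cast (Module.finrank_mul_finrank ℚ K L).symm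
  have hdm : 0 < d * m := mul_pos hd0 hm0
  obtain ⟨H, hH⟩ : ∃ H : ℝ, H = Real.log (Height.mulHeight₁ x) := ⟨_, rfl⟩
  have hHx : height x = H / d := by
    rw [hH, hd]
    unfold height
    rw [Height.logHeight₁_eq_log_mulHeight₁]
  have hH0 : 0 ≤ H := by
    rw [hH]
    exact Real.log_nonneg (Height.one_le_mulHeight₁ _)
  have hHξ : Real.log (Height.mulHeight₁ (algebraMap K L x)) = m * H := by
    rw [Pool.Agent.W223.AC.MK.log_height_ext L x, ← hm, ← hH]
  -- the pieces outside `J`
  obtain ⟨N0, hN0⟩ : ∃ N0 : ℝ, N0 = (Module.finrank k[X] A : ℝ) := ⟨_, rfl⟩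
  obtain ⟨D, hD⟩ : ∃ D : Fin n → ℝ, D = fun l =>
    (Module.finrank k (A ⧸ Ideal.span (Set.range (z l))) : ℝ) := ⟨_, rfl⟩
  have h5 : ∀ l, Pool.Agent.W223.CV.cc S (fun v : HeightOneSpectrum (𝓞 L) =>
        Pool.Agent.Y557.OE.Nz k (z l) (φ : A →+* L) v) ≤
      (D l / (e l * N0) + ε / (n + 1)) * (m * H) + Ck * (d * m) := by
    intro l
    have he1 : (1 : ℝ) ≤ e l := by exact_mod_cast he l
    have h9 := hk2 l S (e l) (by
      intro v hvS hnear i
      obtain ⟨m', hm', hle, i', hi'⟩ := hint v hvS l hnear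
      have hm0 : m' ≠ 0 := by
        rintro rfl
        have h9 : v.valuation L (φ (z l i')) < 1 := hnear.2 i'
        rw [hi'] at h9
        simp at h9
      obtain ⟨c', rfl⟩ := hm'
      refine (hle i).trans ?_
      rw [WithZero.exp_le_exp, neg_le_neg_iff]
      have : 1 ≤ c' := by
        rcases Nat.eq_zero_or_pos c' with h | h
        · rw [h, mul_zero] at hm0; exact absurd rfl hm0
        · exact h
      exact_mod_cast Nat.le_mul_of_pos_right _ this)
    rw [hφ', hHξ, htow, ← hN0] at h9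
    have hDl : (Module.finrank k (A ⧸ Ideal.span (Set.range (z l))) : ℝ) = D l := by rw [hD]
    rw [hDl] at h9
    have he0 : (0 : ℝ) < e l := by linarith
    refine le_of_mul_le_mul_left (h9.trans ?_) he0
    have h12 : (e l : ℝ) * ((D l / (e l * N0) + ε / (n + 1)) * (m * H) + Ck * (d * m)) =
        D l / N0 * (m * H) + e l * (ε / (n + 1) * (m * H) + Ck * (d * m)) := by
      rw [mul_comm (e l : ℝ) N0, ← div_div]
      field_simp
      ring
    rw [h12]
    have h13 : 0 ≤ ε / (n + 1) * (m * H) + Ck * (d * m) := by positivity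
    nlinarith
  have h6 := Finset.sum_le_sum fun l (_ : l ∈ Jᶜ) => h5 l
  have e8 : degree k q z e J = q - ∑ l ∈ Jᶜ, D l / (e l * N0) := by
    rw [hD, hN0]
    rfl
  obtain ⟨g, hg⟩ : ∃ g : ℝ, g = degree k q z e J := ⟨_, rfl⟩
  have hgs : ∑ l ∈ Jᶜ, D l / (e l * N0) = q - g := by rw [hg, e8]; ring
  have hJ : ((Jᶜ.card : ℕ) : ℝ) ≤ n := by
    have := Finset.card_le_univ Jᶜ
    rw [Fintype.card_fin] at this
    exact_mod_cast this
  have h7 : ∑ l ∈ Jᶜ, ((D l / (e l * N0) + ε / (n + 1)) * (m * H) + Ck * (d * m)) ≤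
      (q - g + ε) * (m * H) + n * Ck * (d * m) := by
    rw [Finset.sum_add_distrib, ← Finset.sum_mul, Finset.sum_add_distrib, Finset.sum_const,
      Finset.sum_const, nsmul_eq_mul, nsmul_eq_mul, hgs]
    have h10 : ((Jᶜ.card : ℕ) : ℝ) * (ε / (n + 1)) ≤ ε := by
      rw [mul_div_assoc', div_le_iff₀ hn0]
      nlinarith
    have hmH : 0 ≤ m * H := mul_nonneg hm0.le hH0
    have h11 := mul_le_mul_of_nonneg_right h10 hmH
    have h12 : ((Jᶜ.card : ℕ) : ℝ) * (Ck * (d * m)) ≤ n * (Ck * (d * m)) :=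
      mul_le_mul_of_nonneg_right hJ (by positivity)
    nlinarith
  rw [← hg, hHx]
  unfold logDisc
  obtain ⟨lL, hlL⟩ : ∃ lL : ℝ, lL = Real.log |(discr L : ℝ)| := ⟨_, rfl⟩
  rw [← hlL, htow]
  rw [← hm, ← hlK, ← hlL, htow] at hb1
  rw [← hH] at hxe
  have h9 : m * (lK + ((q : ℝ) - κ / 2) * H) ≤
      lL + (T + ((q - g + ε) * (m * H) + n * Ck * (d * m))) + d * m * W := by
    have h10 : m * (lK + ((q : ℝ) - κ / 2) * H) ≤ m * (lK +
        Pool.Agent.Y728.AK.cntK ∅ (fun j => algebraMap ℚ K (a j)) x) :=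
      mul_le_mul_of_nonneg_left (by linarith) hm0.le
    linarith
  have h10 : m * ((g - κ) * H) ≤ lL + T + d * m * (n * Ck + W - lK / d) := by
    have e10 : d * m * (n * Ck + W - lK / d) = n * Ck * (d * m) + d * m * W - m * lK := by
      field_simp
    rw [e10]
    have e11 : m * (lK + ((q : ℝ) - κ / 2) * H) - (q - g + ε) * (m * H) =
        m * lK + m * ((g - κ) * H) := by
      rw [hε']
      ring
    linarith
  have h11 : (m * ((g - κ) * H)) / (d * m) ≤
      (lL + T + d * m * (n * Ck + W - lK / d)) / (d * m) := div_le_div_of_nonneg_right h10 hdm.le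
  have e12 : (m * ((g - κ) * H)) / (d * m) = (g - κ) * (H / d) := by
    field_simp
  have e13 : (lL + T + d * m * (n * Ck + W - lK / d)) / (d * m) =
      T / (d * m) + lL / (d * m) + (n * Ck + W - lK / d) := by
    rw [add_div, add_div, mul_div_cancel_left₀ _ hdm.ne']
    ring
  rw [e12, e13] at h11
  have h14 := le_abs_self (n * Ck + W - lK / d)
  linarith

end Pool.Agent.Results.MP_a41896_nt.OneExceptionalSet
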