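import Mathlib
import Pool.Agent.Y731.GO.Orb

set_option autoImplicit false

/-!
# MP_a41896_nt: the truncated inequality of Vojta for the integral points with sparse coordinates on
# all root stacks over all smooth projective varieties over `ℚ`

`X` is a smooth projective variety of dimension `N` in `ℙ^(N + s)` with the equations `G k = 0`
(any number of them), `D_1, …, D_q` are divisors of `X` with strict normal crossings, `D_i` with the
equations `F i j = 0`, `j < w`, `F i j` of degree `d i j` (not necessarily a hypersurface section).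

The stack is the root stack of `X` along the `D_i`, `i ∈ I0`, with the multiplicities `m i`: its coarse
moduli space is `X`, its canonical divisor is `K + ∑ i ∈ I0, (1 - 1 / m i) D_i`. These are the smooth
proper Deligne-Mumford stacks with trivial generic stabiliser whose coarse space is `X` and whose
stacky locus is a strict normal crossings divisor. A rational point of `X` off the `D_i` is an
integral point of the stack over the `S`-integers if and only if its intersection numbers with the
`D_i`, `i ∈ I0`, are divisible by `m i` at all primes outside `S`. The divisor `𝒟` is the sum of the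
`D_i`, `i ∉ I0`.

The points considered: `Γ` is a finitely generated group of nonzero rational numbers, `k` a number.
The coordinates of `x` and the factors `y l`, `c i j` of a factorisation
`F i j (x) = c i j * ∏ l, y l ^ ex i l` are sums of `k` products of elements of `Γ` and integers of
absolute value at most `M`; for `i ∈ I0` the exponents `ex i l` are divisible by `m i` and the `c i j`,
`j < w`, have no common prime divisors outside `S`.

The inequality is that of the conjecture, plus a term which vanishes if the product `W` of the factors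
which belong to `𝒟` only is squarefree outside `S` (in particular if `𝒟 = 0`), plus `C (1 + log M)`.
-/

namespace Pool.Agent.Results.MP_a41896_nt.RootStacksSparse

open MvPolynomial

/-- `x` is a primitive integer vector; every rational point of a projective space is represented by
exactly two of them, `x` and `-x` -/
def IsPrimitive {M : ℕ} (x : Fin M → ℤ) : Prop :=
  Finset.univ.gcd x = 1

/-- `max |x_i|`, the multiplicative height of the point given by a primitive `x` -/
def height {M : ℕ} (x : Fin M → ℤ) : ℕ :=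
  Finset.univ.sup (fun i => (x i).natAbs)

/-- `x` is a point of the variety `X` -/
def OnX {M g : ℕ} (G : Fin g → MvPolynomial (Fin M) ℤ) (x : Fin M → ℤ) : Prop :=
  ∀ k, eval x (G k) = 0

/-- The height `h_(D_i)(x)` of the point given by a primitive `x` with respect to the divisor with
the equations `F j = 0`, `F j` of degree `d j`: the sum of all local heights, at the prime `p` minus
the logarithm of `max_j |F j x|_p` (together the logarithm of the greatest common divisor of the
`F j x`), at the infinite place minus the logarithm of `max_j |F j x| / max |x_c| ^ d j`. -/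
noncomputable def componentHeight {M w : ℕ} (F : Fin w → MvPolynomial (Fin M) ℤ)
    (d : Fin w → ℕ) (x : Fin M → ℤ) : ℝ :=
  Real.log ((Finset.univ.gcd fun j => eval x (F j) : ℤ) : ℝ) -
    Real.log (⨆ j, |((eval x (F j) : ℤ) : ℝ)| / (height x : ℝ) ^ d j)

/-- The intersection number `n_p(D_i, x)` of the point given by a primitive `x` and the divisor with
the equations `F j = 0` at the prime `p`: the exponent of `p` in the greatest common divisor of the
`F j x`. -/
noncomputable def intersection {M w : ℕ} (F : Fin w → MvPolynomial (Fin M) ℤ) (p : ℕ)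
    (x : Fin M → ℤ) : ℕ :=
  (Finset.univ.gcd fun j => eval x (F j)).natAbs.factorization p

/-- The point given by a primitive `x` is an integral point of the root stack over the `S`-integers:
at all primes outside `S` the intersection numbers with the `D_i`, `i ∈ I0`, are divisible by
`m i`. -/
def IsIntegralPoint {M q w : ℕ} (S : Finset ℕ) (F : Fin q → Fin w → MvPolynomial (Fin M) ℤ)
    (I0 : Finset (Fin q)) (m : Fin q → ℕ) (x : Fin M → ℤ) : Prop :=
  ∀ i ∈ I0, ∀ p : ℕ, p.Prime → p ∉ S → m i ∣ intersection (F i) p x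

/-- The truncated counting function `N^(1)(𝒟, x)`: the sum of `log p` over the primes `p` outside `S`
at which the intersection number of `x` with some component `D_i` of `𝒟`, `i ∉ I0`, is positive. -/
noncomputable def truncatedCounting {M q w : ℕ} (F : Fin q → Fin w → MvPolynomial (Fin M) ℤ)
    (I0 : Finset (Fin q)) (S : Finset ℕ) (x : Fin M → ℤ) : ℝ :=
  ∑ p ∈ (∏ i ∈ I0ᶜ, Finset.univ.gcd fun j => eval x (F i j)).natAbs.primeFactors \ S, Real.log p

/-- The sum of `(v_p(W) - 1) log p` over the primes `p` outside `S` which divide the integer `W`; it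
is zero if `W` is squarefree outside `S`. -/
noncomputable def excess (S : Finset ℕ) (W : ℤ) : ℝ :=
  ∑ p ∈ W.natAbs.primeFactors \ S, ((W.natAbs.factorization p : ℝ) - 1) * Real.log p

/-- The columns of `A` are a basis of the tangent space of the affine cone over `X` at `x` (the
vectors orthogonal to all gradients of equations), `X` being smooth of dimension `N` at `x`. -/
def IsTangentBasis {M N g : ℕ} (G : Fin g → MvPolynomial (Fin M) ℤ) (x : Fin M → ℤ)
    (A : Matrix (Fin M) (Fin (N + 1)) ℤ) : Prop :=
  LinearIndependent ℚ (fun c : Fin (N + 1) => fun j : Fin M => (A j c : ℚ)) ∧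
    ∀ k c, ∑ j, eval x (pderiv j (G k)) * A j c = 0

/-- The maximal minor of `A` with the rows `J`. -/
def minor {M N : ℕ} (A : Matrix (Fin M) (Fin (N + 1)) ℤ) (J : Fin (N + 1) → Fin M) : ℤ :=
  (A.submatrix J id).det

/-- The height `h_K(x)` for the canonical class `K` of `X`. The Gauss map `γ` sends a point of `X` to
its embedded tangent space, `γ^* O(1) = K + (N + 1) H` for the hyperplane class `H`, and `h_K(x)` is
the height of `γ(x)` (the logarithm of the maximum of the absolute values of the Plücker coordinates,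
divided by their greatest common divisor) minus `(N + 1) h(x)`. -/
noncomputable def canonicalHeight {M N : ℕ} (x : Fin M → ℤ) (A : Matrix (Fin M) (Fin (N + 1)) ℤ) :
    ℝ :=
  Real.log (((Finset.univ.sup (fun J : Fin (N + 1) → Fin M => (minor A J).natAbs) : ℕ) : ℝ) /
    ((Finset.univ.gcd (fun J : Fin (N + 1) → Fin M => minor A J) : ℤ) : ℝ)) -
    (N + 1) * Real.log (height x)

/-- The height for the class `K_𝒳(𝒟) = K + ∑ i ∈ I0, (1 - 1 / m i) D_i + ∑ i ∉ I0, D_i`. -/
noncomputable def stackHeight {M N q w : ℕ} (F : Fin q → Fin w → MvPolynomial (Fin M) ℤ)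
    (d : Fin q → Fin w → ℕ) (I0 : Finset (Fin q)) (m : Fin q → ℕ) (x : Fin M → ℤ)
    (A : Matrix (Fin M) (Fin (N + 1)) ℤ) : ℝ :=
  canonicalHeight x A + ∑ i ∈ I0, (1 - 1 / (m i : ℝ)) * componentHeight (F i) (d i) x +
    ∑ i ∈ I0ᶜ, componentHeight (F i) (d i) x

/-- The dimension of `X` is at least `N`: some `N + 1` coordinates are algebraically independent on
the cone over `X`. -/
def DimGE {M g : ℕ} (N : ℕ) (G : Fin g → MvPolynomial (Fin M) ℤ) : Prop :=
  ∃ J : Fin (N + 1) → Fin M, ∀ P : MvPolynomial (Fin (N + 1)) ℚ,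
    (∀ z : Fin M → ℂ, (∀ k, aeval z (G k) = 0) → aeval (fun i => z (J i)) P = 0) → P = 0

/-- `X` is smooth of codimension `s` and `D` has strict normal crossings on `X`: at each point `z` of
`X` with complex coordinates, for suitable `s` equations of `X` and one equation of each component of
`D` through `z` all gradients at `z` are linearly independent. -/
def SmoothPair {M g q w : ℕ} (s : ℕ) (G : Fin g → MvPolynomial (Fin M) ℤ)
    (F : Fin q → Fin w → MvPolynomial (Fin M) ℤ) : Prop :=
  ∀ z : Fin M → ℂ, z ≠ 0 → (∀ k, aeval z (G k) = 0) →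
    ∃ (K : Fin s → Fin g) (J : Fin q → Fin w),
      LinearIndependent ℂ (Sum.elim
        (fun a : Fin s => fun y : Fin M => aeval z (pderiv y (G (K a))))
        (fun i : {i : Fin q // ∀ j, aeval z (F i j) = 0} => fun y : Fin M =>
          aeval z (pderiv y (F i.1 (J i.1)))))

/-- The form `P` does not vanish on `X`. -/
def NonZeroOn {M g : ℕ} (G : Fin g → MvPolynomial (Fin M) ℤ) (P : MvPolynomial (Fin M) ℚ) : Prop :=
  ∃ z : Fin M → ℂ, (∀ k, aeval z (G k) = 0) ∧ aeval z P ≠ 0

/-- The integer `z` is a sum of `k` products of elements of `Γ` and integers of absolute value at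
most `M`. -/
def Sparse (Γ : Subgroup ℚˣ) (k : ℕ) (M : ℝ) (z : ℤ) : Prop :=
  ∃ (u : Fin k → Γ) (a : Fin k → ℤ), (∀ j, |(a j : ℝ)| ≤ M) ∧
    (z : ℚ) = ∑ j, ((u j : ℚˣ) : ℚ) * a j

theorem li_congr {V ι κ : Type} [AddCommGroup V] [Module ℂ V] (P Q : κ → Prop) (h : P = Q)
    (u : ι → V) (v : κ → V)
    (hli : LinearIndependent ℂ (Sum.elim u fun i : {i // Q i} => v i.1)) :
    LinearIndependent ℂ (Sum.elim u fun i : {i // P i} => v i.1) := by
  subst h
  exact hli

/-- **Main theorem.** Let `X` be a smooth projective variety of dimension `N` over `ℚ` in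
`ℙ^(N + s)` and `D_1, …, D_q` divisors of `X` with strict normal crossings. Consider the root stack of
`X` along the `D_i`, `i ∈ I0`, with the multiplicities `m i`, and the divisor `𝒟 = ∑ i ∉ I0, D_i`. Let
`Γ` be a finitely generated group of nonzero rational numbers, `S` a finite set of primes, `k` a
number, `ex` the exponents of a factorisation, `ex i l` divisible by `m i` for `i ∈ I0`, and `δ > 0`.
There are a form `Φ` that does not vanish on `X` and a constant `C` such that the following holds for
all `M ≥ 1`, all rational points `x` of `X` off the `D_i` and off `Φ = 0` and all factorisations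
`F i j (x) = c i j * ∏ l, y l ^ ex i l`, the `c i j`, `j < w`, without common prime divisors outside
`S` for `i ∈ I0`, for which the coordinates of `x` and the `y l`, `c i j` are sums of `k` products of
elements of `Γ` and integers of absolute value at most `M`: `x` is an integral point of the root
stack over the `S`-integers, and
`h_(K_𝒳(𝒟))(x) ≤ N^(1)(𝒟, x) + δ h(x) + excess(W) + C (1 + log M)`, `W` the product of the `y l` with
`ex i l = 0` for all `i ∈ I0` and of the greatest common divisors of the `c i j`, `i ∉ I0`. -/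
theorem result (N s g q w p k : ℕ) (G : Fin g → MvPolynomial (Fin (N + 1 + s)) ℤ)
    (e : Fin g → ℕ) (hG : ∀ k, (G k).IsHomogeneous (e k))
    (F : Fin q → Fin w → MvPolynomial (Fin (N + 1 + s)) ℤ)
    (d : Fin q → Fin w → ℕ) (hF : ∀ i j, (F i j).IsHomogeneous (d i j))
    (hdim : DimGE N G) (hsm : SmoothPair s G F) (I0 : Finset (Fin q)) (m : Fin q → ℕ)
    (hm : ∀ i ∈ I0, 1 ≤ m i) (ex : Fin q → Fin p → ℕ) (hex : ∀ i ∈ I0, ∀ l, m i ∣ ex i l)
    (hexl : ∀ l, ∃ i, ex i l ≠ 0) (Γ : Subgroup ℚˣ) (hΓ : Γ.FG) (S : Finset ℕ)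
    (δ : ℝ) (hδ : 0 < δ) :
    ∃ (Φ : MvPolynomial (Fin (N + 1 + s)) ℚ) (n : ℕ) (C : ℝ), Φ.IsHomogeneous n ∧ NonZeroOn G Φ ∧
      ∀ M : ℝ, 1 ≤ M → ∀ x : Fin (N + 1 + s) → ℤ, IsPrimitive x → OnX G x →
        (∀ a, Sparse Γ k M (x a)) → (∀ i, ∃ j, eval x (F i j) ≠ 0) →
        eval (fun a => (x a : ℚ)) Φ ≠ 0 →
        ∀ (y : Fin p → ℤ) (c : Fin q → Fin w → ℤ), (∀ l, Sparse Γ k M (y l)) →
          (∀ i j, Sparse Γ k M (c i j)) →
          (∀ i j, eval x (F i j) = c i j * ∏ l, y l ^ (ex i l)) →
          (∀ i ∈ I0, ∀ r : ℕ, r.Prime → (∀ j, (r : ℤ) ∣ c i j) → r ∈ S) →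
          IsIntegralPoint S F I0 m x ∧
          ∀ A : Matrix (Fin (N + 1 + s)) (Fin (N + 1)) ℤ, IsTangentBasis G x A →
            stackHeight F d I0 m x A ≤ truncatedCounting F I0 S x + δ * Real.log (height x) +
              excess S ((∏ l ∈ Finset.univ.filter (fun l => ∀ i ∈ I0, ex i l = 0), y l) *
                ∏ i ∈ I0ᶜ, Finset.univ.gcd (c i)) + C * (1 + Real.log M) := by
  classical
  obtain ⟨J, hJ⟩ := hdim
  obtain ⟨Φ, C, ⟨n, hn⟩, hΦ0, hmain⟩ := Pool.Agent.Y731.GV.gvFin N s g q w p k G e hG F d hF
    (by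
      intro z hz hzG
      obtain ⟨K, J', h⟩ := hsm z hz (fun j => by
        have := hzG j
        rwa [Pool.Agent.Y731.GV.aeval_toQ_complex] at this)
      refine ⟨K, J', ?_⟩
      have hpq : (fun i : Fin q => ∀ j, aeval z (Pool.Agent.Y731.GV.toQ (F i j)) = 0) =
          fun i : Fin q => ∀ j, aeval z (F i j) = 0 := by
        funext i
        simp only [Pool.Agent.Y731.GV.aeval_toQ_complex]
      simp only [Pool.Agent.Y731.GV.toQ_pderiv]
      refine li_congr _ _ hpq _ (fun (i : Fin q) (c : Fin (N + 1 + s)) =>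
        aeval z (Pool.Agent.Y731.GV.toQ (pderiv c (F i (J' i))))) ?_
      simp only [Pool.Agent.Y731.GV.aeval_toQ_complex]
      exact h)
    J ex (fun l => by
      obtain ⟨i, hi⟩ := hexl l
      exact ⟨i, Nat.one_le_iff_ne_zero.2 hi⟩) Γ hΓ S δ hδ
  choose B hB0 hB using fun i => Pool.Agent.Y731.GO.cnt_le_hcomp (F i) (d i) (hF i)
  have hB1 : ∀ i, B i ≤ ∑ i, B i := fun i =>
    Finset.single_le_sum (fun i _ => hB0 i) (Finset.mem_univ i)
  have hBn : 0 ≤ ∑ i, B i := Finset.sum_nonneg fun i _ => hB0 i
  have hmB : 0 ≤ ∑ i ∈ I0, (m i : ℝ)⁻¹ * ∑ i, B i :=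
    Finset.sum_nonneg fun i _ => mul_nonneg (by positivity) hBn
  refine ⟨rename J Φ, n, |C| + ∑ i ∈ I0, (m i : ℝ)⁻¹ * ∑ i, B i, hn.rename_isHomogeneous, ?_, ?_⟩
  · by_contra hcon
    apply hΦ0
    apply hJ
    intro z hz
    by_contra h0
    apply hcon
    refine ⟨z, hz, ?_⟩
    rw [aeval_rename]
    exact h0
  intro M hM x hx hX hxs hFx hΦ y c hys hcs hfac hcS
  rw [eval_rename] at hΦ
  have hc0 : ∀ i, Finset.univ.gcd (c i) ≠ 0 := by
    intro i h0
    obtain ⟨j, hj⟩ := hFx i
    apply hj
    rw [hfac, (Finset.gcd_eq_zero_iff.1 h0) j (Finset.mem_univ _), zero_mul]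
  have hy0 : ∀ l, y l ≠ 0 := by
    intro l h0
    obtain ⟨i, hi⟩ := hexl l
    obtain ⟨j, hj⟩ := hFx i
    apply hj
    rw [hfac, Finset.prod_eq_zero (i := l) (Finset.mem_univ _) (by rw [h0, zero_pow hi]), mul_zero]
  have hg : ∀ i, Finset.univ.gcd (fun j => eval x (F i j)) =
      Finset.univ.gcd (c i) * normalize (∏ l, y l ^ (ex i l)) := by
    intro i
    simp only [hfac]
    exact Finset.gcd_mul_right
  refine ⟨?_, fun A hA => ?_⟩
  · -- integral points
    intro i hi r hr hrS
    have h1 : (Finset.univ.gcd (fun j => eval x (F i j))).natAbs =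
        (Finset.univ.gcd (c i)).natAbs * ∏ l, (y l).natAbs ^ (ex i l) := by
      rw [hg, Int.natAbs_mul, ← Int.abs_eq_normalize, Int.natAbs_abs]
      congr 1
      refine (map_prod Int.natAbsHom (fun l => y l ^ ex i l) Finset.univ).trans ?_
      exact Finset.prod_congr rfl fun l _ => Int.natAbs_pow _ _
    have h2 : (Finset.univ.gcd (c i)).natAbs.factorization r = 0 := by
      apply Nat.factorization_eq_zero_of_not_dvd
      intro h3
      apply hrS
      apply hcS i hi r hr
      intro j
      exact (Int.natCast_dvd.2 h3).trans (Finset.gcd_dvd (Finset.mem_univ j))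
    have hyl : ∀ l, (y l).natAbs ^ (ex i l) ≠ 0 := fun l =>
      pow_ne_zero _ (Int.natAbs_ne_zero.2 (hy0 l))
    have h3 : intersection (F i) r x = ∑ l, ex i l * (y l).natAbs.factorization r := by
      unfold intersection
      rw [h1, Nat.factorization_mul (Int.natAbs_ne_zero.2 (hc0 i))
        (Finset.prod_ne_zero_iff.2 fun l _ => hyl l), Finsupp.add_apply, h2, zero_add,
        Nat.factorization_prod fun l _ => hyl l, Finsupp.finsetSum_apply]
      exact Finset.sum_congr rfl fun l _ => by rw [Nat.factorization_pow]; rfl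
    rw [h3]
    exact Finset.dvd_sum fun l _ => (hex i hi l).mul_right _
  · have h1 := hmain M hM x y c hX hxs hys hcs hfac hFx hx hΦ A (by
      intro κ hκ ρ
      have h5 := Fintype.linearIndependent_iff.1 hA.1 κ (by
        funext j
        rw [Finset.sum_apply, Pi.zero_apply, ← hκ j]
        exact Finset.sum_congr rfl fun c _ => by rw [Pi.smul_apply, smul_eq_mul])
      exact h5 ρ) (fun ρ j => by
        rw [← hA.2 j ρ]
        exact Finset.sum_congr rfl fun c _ => mul_comm _ _)
    have h2 := Pool.Agent.Y731.GO.orb S F d (∑ i, B i) hBn x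
      (fun i => (hB i S x hx (hFx i)).trans (by linarith [hB1 i])) hFx I0 m ex
      (fun i hi l hil => by
        have h3 := hm i hi
        exact ⟨by omega, Nat.le_of_dvd (Nat.pos_of_ne_zero hil) (hex i hi l)⟩)
      (fun l => by
        obtain ⟨i, hi⟩ := hexl l
        exact ⟨i, Nat.one_le_iff_ne_zero.2 hi⟩) y c hfac (fun i hi => by
          apply Pool.Agent.Y731.GO.cnt_eq_zero
          intro r hr hrc _
          exact hcS i hi r hr fun j => hrc.trans (Finset.gcd_dvd (Finset.mem_univ j)))
    set W : ℤ := (∏ l ∈ Finset.univ.filter (fun l => ∀ i ∈ I0, ex i l = 0), y l) *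
      ∏ i ∈ I0ᶜ, Finset.univ.gcd (c i) with hW
    -- truncation
    have h3 : Pool.Agent.Y731.GO.cnt S W ≤ truncatedCounting F I0 S x + excess S W := by
      have h4 : Pool.Agent.Y731.GO.cnt S W = ∑ p ∈ W.natAbs.primeFactors \ S, Real.log p +
          excess S W := by
        unfold Pool.Agent.Y731.GO.cnt excess
        rw [← Finset.sum_add_distrib]
        exact Finset.sum_congr rfl fun r _ => by ring
      rw [h4]
      refine add_le_add ?_ le_rfl
      unfold truncatedCounting
      refine Finset.sum_le_sum_of_subset_of_nonneg (Finset.sdiff_subset_sdiff ?_ le_rfl)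
        fun p _ _ => Real.log_natCast_nonneg p
      intro r hr
      obtain ⟨hr1, hr2, -⟩ := Nat.mem_primeFactors.1 hr
      have hr' : Prime (r : ℤ) := Nat.prime_iff_prime_int.1 hr1
      have hF0 : ∏ i ∈ I0ᶜ, Finset.univ.gcd (fun j => eval x (F i j)) ≠ 0 := by
        refine Finset.prod_ne_zero_iff.2 fun i _ h0 => ?_
        obtain ⟨j, hj⟩ := hFx i
        exact hj (Finset.gcd_eq_zero_iff.1 h0 j (Finset.mem_univ _))
      refine Nat.mem_primeFactors.2 ⟨hr1, ?_, Int.natAbs_ne_zero.2 hF0⟩
      rw [← Int.natCast_dvd] at hr2 ⊢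
      rw [hr'.dvd_finsetProd_iff]
      rw [hW, hr'.dvd_mul, hr'.dvd_finsetProd_iff, hr'.dvd_finsetProd_iff] at hr2
      rcases hr2 with ⟨l, hl, hrl⟩ | ⟨i, hi, hri⟩
      · obtain ⟨i, hi⟩ := hexl l
        refine ⟨i, ?_, ?_⟩
        · rw [Finset.mem_compl]
          intro h
          exact hi ((Finset.mem_filter.1 hl).2 i h)
        · rw [hg]
          refine Dvd.dvd.mul_left ?_ _
          rw [dvd_normalize_iff]
          refine hrl.trans ((dvd_pow_self _ hi).trans ?_)
          exact Finset.dvd_prod_of_mem (fun l => y l ^ (ex i l)) (Finset.mem_univ l)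
      · refine ⟨i, hi, ?_⟩
        rw [hg]
        exact Dvd.dvd.mul_right hri _
    have h4 : canonicalHeight x A + ∑ i, componentHeight (F i) (d i) x ≤
        Pool.Agent.Y731.GO.cnt S ((∏ l, y l) * ∏ i, Finset.univ.gcd (c i)) +
          δ * Real.log (height x) + C * (1 + Real.log M) := h1
    have h5 : ∑ i ∈ I0, (m i : ℝ)⁻¹ * (Pool.Agent.Y731.GV.hcomp (F i) (d i) x + ∑ i, B i) =
        ∑ i ∈ I0, (m i : ℝ)⁻¹ * componentHeight (F i) (d i) x +
          ∑ i ∈ I0, (m i : ℝ)⁻¹ * ∑ i, B i := by
      rw [← Finset.sum_add_distrib]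
      exact Finset.sum_congr rfl fun i _ => mul_add _ _ _
    have h6 : stackHeight F d I0 m x A = canonicalHeight x A +
        ∑ i, componentHeight (F i) (d i) x -
          ∑ i ∈ I0, (m i : ℝ)⁻¹ * componentHeight (F i) (d i) x := by
      unfold stackHeight
      rw [← Finset.sum_add_sum_compl I0 (fun i => componentHeight (F i) (d i) x)]
      have h7 : ∑ i ∈ I0, (1 - 1 / (m i : ℝ)) * componentHeight (F i) (d i) x =
          ∑ i ∈ I0, componentHeight (F i) (d i) x -
            ∑ i ∈ I0, (m i : ℝ)⁻¹ * componentHeight (F i) (d i) x := by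
        rw [← Finset.sum_sub_distrib]
        exact Finset.sum_congr rfl fun i _ => by rw [one_div]; ring
      rw [h7]
      ring
    have hlog : 0 ≤ Real.log M := Real.log_nonneg hM
    have h7 : C * (1 + Real.log M) ≤ |C| * (1 + Real.log M) :=
      mul_le_mul_of_nonneg_right (le_abs_self C) (by linarith)
    have h8 : (∑ i ∈ I0, (m i : ℝ)⁻¹ * ∑ i, B i) * 1 ≤
        (∑ i ∈ I0, (m i : ℝ)⁻¹ * ∑ i, B i) * (1 + Real.log M) :=
      mul_le_mul_of_nonneg_left (by linarith) hmB
    rw [h6, add_mul]
    rw [h5] at h2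
    linarith

end Pool.Agent.Results.MP_a41896_nt.RootStacksSparse
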